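import Pool.Agent.Helper37.LG.Main3

namespace Pool.Agent.Helper37.LG

variable {k : Type*} [Field k] {V : Type*} [AddCommGroup V] [Module k V]

/-- contraction of an alternating three-form with a vector, as a bilinear map -/
def contr (φ : V [⋀^Fin 3]→ₗ[k] k) (u : V) : V →ₗ[k] V →ₗ[k] k :=
  LinearMap.mk₂ k (fun x y => φ ![u, x, y])
    (by
      intro x x' y
      have h := φ.map_update_add ![u, x, y] 1 x x'
      have e : ∀ z, Function.update ![u, x, y] 1 z = ![u, z, y] := by
        intro z; funext i; fin_cases i <;> rfl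
      simpa only [e] using h)
    (by
      intro c x y
      have h := φ.map_update_smul ![u, x, y] 1 c x
      have e : ∀ z, Function.update ![u, x, y] 1 z = ![u, z, y] := by
        intro z; funext i; fin_cases i <;> rfl
      simpa only [e] using h)
    (by
      intro x y y'
      have h := φ.map_update_add ![u, x, y] 2 y y'
      have e : ∀ z, Function.update ![u, x, y] 2 z = ![u, x, z] := by
        intro z; funext i; fin_cases i <;> rfl
      simpa only [e] using h)
    (by
      intro c x y
      have h := φ.map_update_smul ![u, x, y] 2 c y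
      have e : ∀ z, Function.update ![u, x, y] 2 z = ![u, x, z] := by
        intro z; funext i; fin_cases i <;> rfl
      simpa only [e] using h)

lemma contr_apply (φ : V [⋀^Fin 3]→ₗ[k] k) (u x y : V) : contr φ u x y = φ ![u, x, y] := rfl

lemma contr_self (φ : V [⋀^Fin 3]→ₗ[k] k) (u x : V) : contr φ u x x = 0 := by
  rw [contr_apply]
  exact φ.map_eq_zero_of_eq ![u, x, x] (i := 1) (j := 2) rfl (by decide)

lemma contr_left (φ : V [⋀^Fin 3]→ₗ[k] k) (u x : V) : contr φ u u x = 0 := by
  rw [contr_apply]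
  exact φ.map_eq_zero_of_eq ![u, u, x] (i := 0) (j := 1) rfl (by decide)

lemma contr_add (φ : V [⋀^Fin 3]→ₗ[k] k) (u u' x y : V) :
    contr φ (u + u') x y = contr φ u x y + contr φ u' x y := by
  simp only [contr_apply]
  have h := φ.map_update_add ![u, x, y] 0 u u'
  have e : ∀ z, Function.update ![u, x, y] 0 z = ![z, x, y] := by
    intro z; funext i; fin_cases i <;> rfl
  simpa only [e] using h

lemma contr_smul (φ : V [⋀^Fin 3]→ₗ[k] k) (c : k) (u x y : V) :
    contr φ (c • u) x y = c * contr φ u x y := by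
  simp only [contr_apply]
  have h := φ.map_update_smul ![u, x, y] 0 c u
  have e : ∀ z, Function.update ![u, x, y] 0 z = ![z, x, y] := by
    intro z; funext i; fin_cases i <;> rfl
  simpa only [e, smul_eq_mul] using h

lemma contr_zero (φ : V [⋀^Fin 3]→ₗ[k] k) (x y : V) : contr φ 0 x y = 0 := by
  have := contr_smul φ 0 0 x y
  simpa using this

lemma contr_sum (φ : V [⋀^Fin 3]→ₗ[k] k) {ι : Type*} (s : Finset ι) (c : ι → k) (e : ι → V)
    (x y : V) : contr φ (∑ l ∈ s, c l • e l) x y = ∑ l ∈ s, c l * contr φ (e l) x y := by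
  classical
  induction s using Finset.induction_on with
  | empty => simp [contr_zero]
  | insert a s ha ih => rw [Finset.sum_insert ha, Finset.sum_insert ha, contr_add, contr_smul, ih]

/-- change of basis for a bilinear map -/
lemma change (β : V →ₗ[k] V →ₗ[k] k) (e : Module.Basis (Fin 6) k V) (s : Fin 6 → V) :
    (Matrix.of fun a b => e.repr (s b) a).transpose * (Matrix.of fun a b => β (e a) (e b)) *
      (Matrix.of fun a b => e.repr (s b) a) = Matrix.of fun a b => β (s a) (s b) := by
  ext a b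
  rw [Matrix.of_apply]
  conv_rhs => rw [← e.sum_repr (s a), ← e.sum_repr (s b)]
  simp only [Matrix.mul_apply, Matrix.transpose_apply, Matrix.of_apply, map_sum, map_smul,
    LinearMap.sum_apply, LinearMap.smul_apply, smul_eq_mul, Finset.sum_mul, Finset.mul_sum]
  refine Finset.sum_congr rfl fun i _ => Finset.sum_congr rfl fun j _ => ?_
  ring

/-- the three-dimensional case, in terms of a family of vectors -/
theorem base (hk : IsC1 k) (h2 : (2 : k) ≠ 0) [FiniteDimensional k V]
    (hV : Module.finrank k V = 6) (ω : V →ₗ[k] V →ₗ[k] k) (hω : ∀ x, ω x x = 0)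
    (hnd : ∀ x, (∀ y, ω x y = 0) → x = 0) (φ : Fin 3 → V [⋀^Fin 3]→ₗ[k] k) :
    ∃ v : Fin 3 → V, LinearIndependent k v ∧ (∀ a b, ω (v a) (v b) = 0) ∧ ∀ i, φ i v = 0 := by
  classical
  let e : Module.Basis (Fin 6) k V := Module.finBasisOfFinrankEq k V hV
  let J : Matrix (Fin 6) (Fin 6) k := Matrix.of fun a b => ω (e a) (e b)
  let Φ : V → Fin 3 → Matrix (Fin 6) (Fin 6) k :=
    fun u i => Matrix.of fun a b => contr (φ i) u (e a) (e b)
  obtain ⟨x, y, hx, hxy⟩ := exists_zero hk (fun i l => J⁻¹ * Φ (e l) i)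
  set u : V := ∑ l, x l • e l with hu
  have hsum : ∀ i, (∑ l, x l • (J⁻¹ * Φ (e l) i)) = J⁻¹ * Φ u i := by
    intro i
    have h1 : Φ u i = ∑ l, x l • Φ (e l) i := by
      ext a b
      simp only [Φ, Matrix.of_apply, hu, contr_sum, Matrix.sum_apply, Matrix.smul_apply,
        smul_eq_mul]
    rw [h1, Matrix.mul_sum]
    simp only [Matrix.mul_smul]
  simp only [hsum] at hxy
  have hu0 : u ≠ 0 := by
    intro h0
    apply hx
    funext l
    exact Fintype.linearIndependent_iff.1 e.linearIndependent x (hu ▸ h0) l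
  obtain ⟨s, hs0, hs⟩ := exists_symp ω hω hnd hV hu0
  let P : Matrix (Fin 6) (Fin 6) k := Matrix.of fun a b => e.repr (s b) a
  have hP : P.transpose * J * P = J0 := by
    have h1 := change ω e s
    have h3 : (Matrix.of fun a b => ω (s a) (s b)) = J0 := by
      ext a b; exact hs a b
    rw [h3] at h1
    exact h1
  let b : Fin 3 → Fin 6 → Fin 6 → k := fun i a c => contr (φ i) u (s a) (s c)
  have hb : ∀ i, P.transpose * Φ u i * P = Matrix.of (b i) := fun i => change (contr (φ i) u) e s
  have hb0 : ∀ i a, b i 0 a = 0 := fun i a => by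
    show contr (φ i) u (s 0) (s a) = 0
    rw [hs0]; exact contr_left _ _ _
  have hb2 : ∀ i a, b i a a = 0 := fun i a => contr_self _ _ _
  have hb1 : ∀ i a c, b i a c = - b i c a := fun i a c =>
    alt_swap (contr (φ i) u) (fun x => contr_self _ _ _) _ _
  have hent : ∀ i j, 4 * ((J⁻¹ * Φ u i) * (J⁻¹ * Φ u j)).trace -
      (J⁻¹ * Φ u i).trace * (J⁻¹ * Φ u j).trace = 8 * G5 (vec5 (b i)) (vec5 (b j)) := by
    intro i j
    rw [trace_two hP, trace_one hP, trace_one hP, hb, hb]
    exact trace_explicit h2 (hb0 i) (hb1 i) (hb2 i) (hb0 j) (hb1 j) (hb2 j)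
  have hdet : (Matrix.of fun i j => 4 * ((J⁻¹ * Φ u i) * (J⁻¹ * Φ u j)).trace -
      (J⁻¹ * Φ u i).trace * (J⁻¹ * Φ u j).trace).det =
      512 * (Matrix.of fun i j => G5 (vec5 (b i)) (vec5 (b j))).det := by
    have h1 : (Matrix.of fun i j => 4 * ((J⁻¹ * Φ u i) * (J⁻¹ * Φ u j)).trace -
      (J⁻¹ * Φ u i).trace * (J⁻¹ * Φ u j).trace) =
      (8 : k) • (Matrix.of fun i j => G5 (vec5 (b i)) (vec5 (b j))) := by
      ext i j
      rw [Matrix.of_apply, hent, Matrix.smul_apply, Matrix.of_apply, smul_eq_mul]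
    rw [h1, Matrix.det_smul, Fintype.card_fin]
    norm_num
  rw [hdet] at hxy
  have hr : -2 * (Matrix.of fun i j => G5 (vec5 (b i)) (vec5 (b j))).det = (y ^ 3 / 16) ^ 2 := by
    have h16 : (16 : k) ≠ 0 := by
      have : (16 : k) = 2 ^ 4 := by norm_num
      rw [this]; exact pow_ne_zero _ h2
    rw [div_pow, eq_div_iff (pow_ne_zero 2 h16), ← hxy]
    ring
  obtain ⟨X, hX0, hXX, hXA⟩ := exists_isotropic_orth hk h2 (fun i => vec5 (b i)) (y ^ 3 / 16) hr
  have hXq : X 0 * X 0 + X 1 * X 4 - X 2 * X 3 = 0 := by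
    have h1 : 2 * (X 0 * X 0 + X 1 * X 4 - X 2 * X 3) = 0 := by
      rw [← hXX]; unfold G5; ring
    exact (mul_eq_zero.1 h1).resolve_left h2
  let β : Fin 4 → V →ₗ[k] V →ₗ[k] k := ![ω, contr (φ 0) u, contr (φ 1) u, contr (φ 2) u]
  have hβ : ∀ i x, β i x x = 0 := by
    intro i x
    fin_cases i
    · exact hω x
    · exact contr_self _ _ _
    · exact contr_self _ _ _
    · exact contr_self _ _ _
  let w : Fin 4 → V := ![s 2, s 3, s 4, s 5]
  have hlin : ∀ i : Fin 3, (contr (φ i) u (s 2) (s 3) - contr (φ i) u (s 4) (s 5)) * X 0 +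
      contr (φ i) u (s 2) (s 4) * X 1 + contr (φ i) u (s 2) (s 5) * X 2 +
      contr (φ i) u (s 3) (s 4) * X 3 + contr (φ i) u (s 3) (s 5) * X 4 = 0 := by
    intro i
    rw [← hXA i]
    simp only [G5, vec5, Matrix.cons_val_zero, Matrix.cons_val_one, Matrix.cons_val, b]
    field_simp
    ring
  have hpβ : ∀ i, (β i (w 0) (w 1) - β i (w 2) (w 3)) * X 0 + β i (w 0) (w 2) * X 1 +
      β i (w 0) (w 3) * X 2 + β i (w 1) (w 2) * X 3 + β i (w 1) (w 3) * X 4 = 0 := by
    intro i
    fin_cases i
    · show (ω (s 2) (s 3) - ω (s 4) (s 5)) * X 0 + ω (s 2) (s 4) * X 1 +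
        ω (s 2) (s 5) * X 2 + ω (s 3) (s 4) * X 3 + ω (s 3) (s 5) * X 4 = 0
      simp only [hs]
      simp [J0]
    · exact hlin 0
    · exact hlin 1
    · exact hlin 2
  obtain ⟨c, d, ⟨a0, b0, hca, hcb, hdb, hda⟩, hcd⟩ := exists_plane β hβ w X hX0 hXq hpβ
  -- linear independence of the symplectic basis
  have hsLI : LinearIndependent k s := by
    rw [Fintype.linearIndependent_iff]
    intro g hg i
    have h1 : ∀ c : Fin 6, ∑ a, g a * J0 a c = 0 := by
      intro c
      have h3 : ω (∑ a, g a • s a) (s c) = 0 := by rw [hg]; simp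
      rw [map_sum, LinearMap.sum_apply] at h3
      rw [← h3]
      refine Finset.sum_congr rfl fun a _ => ?_
      rw [map_smul, LinearMap.smul_apply, hs, smul_eq_mul]
    have h10 := h1 0
    have h11 := h1 1
    have h12 := h1 2
    have h13 := h1 3
    have h14 := h1 4
    have h15 := h1 5
    simp [J0, Fin.sum_univ_succ] at h10 h11 h12 h13 h14 h15
    fin_cases i <;> assumption
  have hw : ∀ g : Fin 4 → k, ∑ j, g j • w j = g 0 • s 2 + g 1 • s 3 + g 2 • s 4 + g 3 • s 5 := by
    intro g
    rw [Fin.sum_univ_four]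
    rfl
  refine ⟨![u, ∑ j, c j • w j, ∑ j, d j • w j], ?_, ?_, ?_⟩
  · rw [Fintype.linearIndependent_iff]
    intro g hg
    rw [Fin.sum_univ_three] at hg
    simp only [Matrix.cons_val_zero, Matrix.cons_val_one, Matrix.cons_val] at hg
    rw [hw, hw, ← hs0] at hg
    have h1 := Fintype.linearIndependent_iff.1 hsLI
      ![g 0, 0, g 1 * c 0 + g 2 * d 0, g 1 * c 1 + g 2 * d 1, g 1 * c 2 + g 2 * d 2,
        g 1 * c 3 + g 2 * d 3] (by
        rw [← hg]
        simp only [Fin.sum_univ_succ, Fin.sum_univ_zero]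
        simp [smul_add, smul_smul, add_smul]
        abel)
    have hg0 : g 0 = 0 := h1 0
    have hj : ∀ j : Fin 4, g 1 * c j + g 2 * d j = 0 := by
      intro j
      fin_cases j
      · exact h1 2
      · exact h1 3
      · exact h1 4
      · exact h1 5
    have hg2 : g 2 = 0 := by
      have := hj a0
      rw [hca, mul_zero, zero_add] at this
      exact (mul_eq_zero.1 this).resolve_right hda
    have hg1 : g 1 = 0 := by
      have := hj b0
      rw [hdb, mul_zero, add_zero] at this
      exact (mul_eq_zero.1 this).resolve_right hcb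
    intro i
    fin_cases i
    · exact hg0
    · exact hg1
    · exact hg2
  · have huw : ∀ g : Fin 4 → k, ω u (∑ j, g j • w j) = 0 := by
      intro g
      rw [hw, ← hs0]
      simp only [map_add, map_smul, hs]
      simp [J0]
    have hcd0 : ω (∑ j, c j • w j) (∑ j, d j • w j) = 0 := hcd 0
    have h1 : ∀ a b, ω a b = 0 → ω b a = 0 := fun a b h => by rw [alt_swap ω hω, h, neg_zero]
    intro a b
    fin_cases a <;> fin_cases b
    · exact hω _
    · exact huw c
    · exact huw d
    · exact h1 _ _ (huw c)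
    · exact hω _
    · exact hcd0
    · exact h1 _ _ (huw d)
    · exact h1 _ _ hcd0
    · exact hω _
  · intro i
    fin_cases i
    · exact hcd 1
    · exact hcd 2
    · exact hcd 3

/-- the general case, in terms of a family of vectors -/
theorem family (hk : IsC1 k) (h2 : (2 : k) ≠ 0) (n : ℕ) (hn : 3 ≤ n) :
    ∀ (V : Type*) [AddCommGroup V] [Module k V] [FiniteDimensional k V]
    (_ : Module.finrank k V = 2 * n) (ω : V →ₗ[k] V →ₗ[k] k) (_ : ∀ x, ω x x = 0)
    (_ : ∀ x, (∀ y, ω x y = 0) → x = 0) (φ : Fin 3 → V [⋀^Fin n]→ₗ[k] k),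
    ∃ v : Fin n → V, LinearIndependent k v ∧ (∀ a b, ω (v a) (v b) = 0) ∧ ∀ i, φ i v = 0 := by
  induction n, hn using Nat.le_induction with
  | base =>
    intro V _ _ _ hV ω hω hnd φ
    exact base hk h2 hV ω hω hnd φ
  | succ n hn ih =>
    intro V _ _ _ hV ω hω hnd φ
    have hpos : 0 < Module.finrank k V := by omega
    have : Nontrivial V := Module.nontrivial_of_finrank_pos hpos
    obtain ⟨u, hu⟩ := exists_ne (0 : V)
    obtain ⟨f, hf⟩ := exists_partner ω hnd hu
    have hfu : ω f u = -1 := by rw [alt_swap ω hω, hf]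
    let T : V →ₗ[k] k × k := (ω u).prod (ω f)
    have hT : Function.Surjective T := by
      intro p
      refine ⟨p.1 • f - p.2 • u, ?_⟩
      ext
      · simp [T, hf, hω]
      · simp [T, hfu, hω]
    let W : Submodule k V := LinearMap.ker T
    have hW : Module.finrank k W = 2 * n := by
      have h1 := LinearMap.finrank_range_add_finrank_ker T
      rw [LinearMap.range_eq_top.2 hT, finrank_top] at h1
      simp only [Module.finrank_prod, Module.finrank_self] at h1
      show Module.finrank k (LinearMap.ker T) = 2 * n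
      omega
    have hWu : ∀ w : W, ω u w = 0 := fun w => congrArg Prod.fst (LinearMap.mem_ker.1 w.2)
    have hWf : ∀ w : W, ω f w = 0 := fun w => congrArg Prod.snd (LinearMap.mem_ker.1 w.2)
    let ω' : W →ₗ[k] W →ₗ[k] k := ω.compl₁₂ W.subtype W.subtype
    have hω' : ∀ x, ω' x x = 0 := fun x => hω x
    have hnd' : ∀ x, (∀ y, ω' x y = 0) → x = 0 := by
      intro x hx
      apply Subtype.ext
      apply hnd
      intro y
      have hy' : y - ω y f • u - ω u y • f ∈ W := by
        show _ ∈ LinearMap.ker T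
        rw [LinearMap.mem_ker]
        ext
        · simp [T, hω, hf]
        · simp [T, hω, hfu, alt_swap ω hω y f]
      have h1 : ω x (y - ω y f • u - ω u y • f) = 0 := hx ⟨_, hy'⟩
      have h3 : ω (x : V) u = 0 := by rw [alt_swap ω hω, hWu, neg_zero]
      have h4 : ω (x : V) f = 0 := by rw [alt_swap ω hω, hWf, neg_zero]
      simpa [h3, h4] using h1
    obtain ⟨v, hv, hvω, hvφ⟩ := ih W hW ω' hω' hnd'
      (fun i => ((φ i).curryLeft u).compLinearMap W.subtype)
    refine ⟨Matrix.vecCons u fun j => (v j : V), ?_, ?_, ?_⟩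
    · have h1 : LinearIndependent k fun j => (v j : V) :=
        hv.map' W.subtype W.ker_subtype
      refine linearIndependent_finCons.2 ⟨h1, ?_⟩
      intro hmem
      have h3 : Submodule.span k (Set.range fun j => (v j : V)) ≤ W := by
        rw [Submodule.span_le]
        rintro _ ⟨j, rfl⟩
        exact (v j).2
      have h4 := hWf ⟨u, h3 hmem⟩
      rw [hfu] at h4
      exact one_ne_zero (neg_eq_zero.1 h4)
    · intro a b
      refine Fin.cases ?_ (fun a => ?_) a <;> refine Fin.cases ?_ (fun b => ?_) b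
      · exact hω u
      · exact hWu (v b)
      · show ω (v a) u = 0
        rw [alt_swap ω hω, hWu, neg_zero]
      · exact hvω a b
    · intro i
      exact hvφ i

/-- from a family of vectors to a subspace -/
lemma subspace_of_family {n : ℕ} (ω : V →ₗ[k] V →ₗ[k] k) {m : ℕ}
    (φ : Fin m → V [⋀^Fin n]→ₗ[k] k) (v : Fin n → V) (hv : LinearIndependent k v)
    (hω : ∀ a b, ω (v a) (v b) = 0) (hφ : ∀ i, φ i v = 0) :
    ∃ U : Submodule k V, Module.finrank k U = n ∧ (∀ x ∈ U, ∀ y ∈ U, ω x y = 0) ∧
      ∀ i, ∀ w : Fin n → V, (∀ j, w j ∈ U) → φ i w = 0 := by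
  refine ⟨Submodule.span k (Set.range v), ?_, ?_, ?_⟩
  · rw [finrank_span_eq_card hv, Fintype.card_fin]
  · intro x hx y hy
    induction hx using Submodule.span_induction with
    | mem x hx =>
      obtain ⟨a, rfl⟩ := hx
      induction hy using Submodule.span_induction with
      | mem y hy =>
        obtain ⟨b, rfl⟩ := hy
        exact hω a b
      | zero => simp
      | add y z _ _ h1 h2 => rw [map_add, h1, h2, add_zero]
      | smul c y _ h1 => rw [map_smul, h1, smul_zero]
    | zero => simp
    | add x z _ _ h1 h2 => rw [map_add, LinearMap.add_apply, h1, h2, add_zero]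
    | smul c x _ h1 => rw [map_smul, LinearMap.smul_apply, h1, smul_zero]
  · intro i w hw
    let e := Module.Basis.span hv
    let U : Submodule k V := Submodule.span k (Set.range v)
    have h1 : (φ i).compLinearMap U.subtype = 0 := by
      refine Module.Basis.ext_alternating e fun σ hσ => ?_
      have h3 : (fun j => (e (σ j) : V)) = v ∘ (Equiv.ofBijective σ
          (Finite.injective_iff_bijective.1 hσ)) := by
        funext j
        exact congrArg Subtype.val (Module.Basis.span_apply hv (σ j))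
      show φ i (fun j => (e (σ j) : V)) = 0
      rw [h3, AlternatingMap.map_perm, hφ, smul_zero]
    have h3 := congrArg (fun f => f fun j => (⟨w j, hw j⟩ : U)) h1
    exact h3

end Pool.Agent.Helper37.LG
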