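import Pool.Agent.Helper37.LG.Symp

open MvPolynomial

namespace Pool.Agent.Helper37.LG

variable {k : Type*} [Field k]

section poly

variable (τ : Fin 3 → Fin 6 → Matrix (Fin 6) (Fin 6) k)

/-- linear entries -/
noncomputable def Tp (i : Fin 3) (a b : Fin 6) : MvPolynomial (Fin 7) k :=
  ∑ l, C (τ i l a b) * X l.castSucc

/-- quadratic entries -/
noncomputable def Hp (i j : Fin 3) : MvPolynomial (Fin 7) k :=
  C 4 * (∑ a, ∑ b, Tp τ i a b * Tp τ j b a) - (∑ a, Tp τ i a a) * (∑ a, Tp τ j a a)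

/-- the sextic form in seven variables -/
noncomputable def Fp : MvPolynomial (Fin 7) k :=
  (Matrix.of fun i j => Hp τ i j).det + X (Fin.last 6) ^ 6

lemma Tp_hom (i : Fin 3) (a b : Fin 6) : (Tp τ i a b).IsHomogeneous 1 := by
  apply IsHomogeneous.sum
  intro l _
  have := (isHomogeneous_C (Fin 7) (τ i l a b)).mul (isHomogeneous_X k l.castSucc)
  simpa using this

lemma Hp_hom (i j : Fin 3) : (Hp τ i j).IsHomogeneous 2 := by
  refine IsHomogeneous.sub ?_ ?_
  · have h1 : (∑ a, ∑ b, Tp τ i a b * Tp τ j b a).IsHomogeneous 2 := by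
      apply IsHomogeneous.sum
      intro a _
      apply IsHomogeneous.sum
      intro b _
      exact (Tp_hom τ i a b).mul (Tp_hom τ j b a)
    have := (isHomogeneous_C (Fin 7) (4 : k)).mul h1
    simpa using this
  · have h1 : ∀ i, (∑ a, Tp τ i a a).IsHomogeneous 1 := by
      intro i
      apply IsHomogeneous.sum
      intro a _
      exact Tp_hom τ i a a
    exact (h1 i).mul (h1 j)

lemma Fp_hom : (Fp τ).IsHomogeneous 6 := by
  refine IsHomogeneous.add ?_ ?_
  · rw [Matrix.det_apply]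
    apply IsHomogeneous.sum
    intro σ _
    have h1 : (∏ i, (Matrix.of fun i j => Hp τ i j) (σ i) i).IsHomogeneous
        (∑ _i : Fin 3, 2) := by
      apply IsHomogeneous.prod
      intro i _
      exact Hp_hom τ _ _
    simp only [Finset.sum_const, Finset.card_univ, Fintype.card_fin, smul_eq_mul] at h1
    rcases Int.units_eq_one_or (Equiv.Perm.sign σ) with h | h
    · rw [h, one_smul]; exact h1
    · rw [h, Units.neg_smul, one_smul]; exact h1.neg
  · have := (isHomogeneous_X k (Fin.last 6)).pow 6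
    simpa using this

/-- evaluation of the linear entries -/
noncomputable def Te (x : Fin 7 → k) (i : Fin 3) : Matrix (Fin 6) (Fin 6) k :=
  ∑ l : Fin 6, x l.castSucc • τ i l

lemma eval_Tp (x : Fin 7 → k) (i : Fin 3) (a b : Fin 6) : eval x (Tp τ i a b) = Te τ x i a b := by
  simp only [Tp, Te, map_sum, map_mul, eval_C, eval_X, Matrix.sum_apply, Matrix.smul_apply,
    smul_eq_mul]
  exact Finset.sum_congr rfl fun l _ => mul_comm _ _

lemma eval_Hp (x : Fin 7 → k) (i j : Fin 3) : eval x (Hp τ i j) =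
    4 * (Te τ x i * Te τ x j).trace - (Te τ x i).trace * (Te τ x j).trace := by
  simp only [Hp, map_sub, map_mul, eval_C, map_sum, eval_Tp, Matrix.trace, Matrix.diag_apply,
    Matrix.mul_apply]

lemma eval_Fp (x : Fin 7 → k) : eval x (Fp τ) =
    (Matrix.of fun i j => 4 * (Te τ x i * Te τ x j).trace -
      (Te τ x i).trace * (Te τ x j).trace).det + x (Fin.last 6) ^ 6 := by
  unfold Fp
  rw [map_add, map_pow, eval_X, RingHom.map_det]
  congr 2
  ext i j
  rw [RingHom.mapMatrix_apply, Matrix.map_apply, Matrix.of_apply, Matrix.of_apply, eval_Hp]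

end poly

section main

variable {V : Type*} [AddCommGroup V] [Module k V]

/-- the sextic of three families of alternating matrices has a nontrivial zero with nonzero
first part -/
lemma exists_zero (hk : IsC1 k) (τ : Fin 3 → Fin 6 → Matrix (Fin 6) (Fin 6) k) :
    ∃ (x : Fin 6 → k) (y : k), x ≠ 0 ∧
      -(Matrix.of fun i j => 4 * ((∑ l, x l • τ i l) * (∑ l, x l • τ j l)).trace -
        (∑ l, x l • τ i l).trace * (∑ l, x l • τ j l).trace).det = (y ^ 3) ^ 2 := by
  obtain ⟨z, hz0, hz⟩ := hk 7 6 (Fp τ) (Fp_hom τ) (by norm_num) (by norm_num)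
  rw [eval_Fp] at hz
  refine ⟨fun l => z l.castSucc, z (Fin.last 6), ?_, ?_⟩
  · intro h0
    have h1 : ∀ i, Te τ z i = 0 := by
      intro i
      unfold Te
      refine Finset.sum_eq_zero fun l _ => ?_
      have : z l.castSucc = 0 := congrFun h0 l
      rw [this, zero_smul]
    have h2 : (Matrix.of fun i j => 4 * (Te τ z i * Te τ z j).trace -
      (Te τ z i).trace * (Te τ z j).trace) = 0 := by
      ext i j
      simp [h1]
    rw [h2, Matrix.det_zero, zero_add] at hz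
    apply hz0
    funext i
    refine Fin.lastCases ?_ (fun l => ?_) i
    · exact pow_eq_zero_iff (by norm_num) |>.1 hz
    · exact congrFun h0 l
  · have h1 : ∀ i, (∑ l, z l.castSucc • τ i l) = Te τ z i := fun i => rfl
    simp only [h1]
    rw [← pow_mul]
    linear_combination -hz

/-- from a bivector to a plane -/
lemma exists_plane (β : Fin 4 → V →ₗ[k] V →ₗ[k] k) (hβ : ∀ i x, β i x x = 0) (w : Fin 4 → V)
    (p : Fin 5 → k) (hp0 : p ≠ 0) (hp : p 0 * p 0 + p 1 * p 4 - p 2 * p 3 = 0)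
    (hpβ : ∀ i, (β i (w 0) (w 1) - β i (w 2) (w 3)) * p 0 + β i (w 0) (w 2) * p 1 +
      β i (w 0) (w 3) * p 2 + β i (w 1) (w 2) * p 3 + β i (w 1) (w 3) * p 4 = 0) :
    ∃ c d : Fin 4 → k, (∃ a b, c a = 0 ∧ c b ≠ 0 ∧ d b = 0 ∧ d a ≠ 0) ∧
      ∀ i, β i (∑ j, c j • w j) (∑ j, d j • w j) = 0 := by
  have hexp : ∀ (i : Fin 4) (c d : Fin 4 → k), β i (∑ j, c j • w j) (∑ j, d j • w j) =
      β i (w 0) (w 1) * (c 0 * d 1 - c 1 * d 0) + β i (w 0) (w 2) * (c 0 * d 2 - c 2 * d 0) +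
      β i (w 0) (w 3) * (c 0 * d 3 - c 3 * d 0) + β i (w 1) (w 2) * (c 1 * d 2 - c 2 * d 1) +
      β i (w 1) (w 3) * (c 1 * d 3 - c 3 * d 1) + β i (w 2) (w 3) * (c 2 * d 3 - c 3 * d 2) := by
    intro i c d
    simp only [Fin.sum_univ_four, map_add, map_smul, LinearMap.add_apply, LinearMap.smul_apply,
      smul_eq_mul, hβ, alt_swap (β i) (hβ i) (w 0) (w 1), alt_swap (β i) (hβ i) (w 0) (w 2),
      alt_swap (β i) (hβ i) (w 0) (w 3), alt_swap (β i) (hβ i) (w 1) (w 2),
      alt_swap (β i) (hβ i) (w 1) (w 3), alt_swap (β i) (hβ i) (w 2) (w 3)]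
    ring
  have hex : p 0 ≠ 0 ∨ p 1 ≠ 0 ∨ p 2 ≠ 0 ∨ p 3 ≠ 0 ∨ p 4 ≠ 0 := by
    by_contra hcon
    push Not at hcon
    obtain ⟨h0, h1, h2, h3, h4⟩ := hcon
    apply hp0
    funext i
    fin_cases i <;> assumption
  rcases hex with h | h | h | h | h
  · refine ⟨![0, p 0, p 1, p 2], ![-p 0, 0, p 3, p 4], ⟨0, 1, rfl, h, rfl, neg_ne_zero.2 h⟩,
      fun i => ?_⟩
    rw [hexp]
    simp only [Matrix.cons_val_zero, Matrix.cons_val_one, Matrix.cons_val]
    linear_combination p 0 * hpβ i + β i (w 2) (w 3) * hp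
  · refine ⟨![0, p 0, p 1, p 2], ![-p 1, -p 3, 0, -p 0], ⟨0, 2, rfl, h, rfl, neg_ne_zero.2 h⟩,
      fun i => ?_⟩
    rw [hexp]
    simp only [Matrix.cons_val_zero, Matrix.cons_val_one, Matrix.cons_val]
    linear_combination p 1 * hpβ i - β i (w 1) (w 3) * hp
  · refine ⟨![0, p 0, p 1, p 2], ![-p 2, -p 4, p 0, 0], ⟨0, 3, rfl, h, rfl, neg_ne_zero.2 h⟩,
      fun i => ?_⟩
    rw [hexp]
    simp only [Matrix.cons_val_zero, Matrix.cons_val_one, Matrix.cons_val]
    linear_combination p 2 * hpβ i + β i (w 1) (w 2) * hp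
  · refine ⟨![-p 0, 0, p 3, p 4], ![-p 1, -p 3, 0, -p 0], ⟨1, 2, rfl, h, rfl, neg_ne_zero.2 h⟩,
      fun i => ?_⟩
    rw [hexp]
    simp only [Matrix.cons_val_zero, Matrix.cons_val_one, Matrix.cons_val]
    linear_combination p 3 * hpβ i + β i (w 0) (w 3) * hp
  · refine ⟨![-p 0, 0, p 3, p 4], ![-p 2, -p 4, p 0, 0], ⟨1, 3, rfl, h, rfl, neg_ne_zero.2 h⟩,
      fun i => ?_⟩
    rw [hexp]
    simp only [Matrix.cons_val_zero, Matrix.cons_val_one, Matrix.cons_val]
    linear_combination p 4 * hpβ i - β i (w 0) (w 2) * hp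

end main

end Pool.Agent.Helper37.LG
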