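import Mathlib

open MvPolynomial

namespace Pool.Agent.Helper37.LG

/-- A field is `C1` if every homogeneous polynomial of degree `d ≥ 1` in `n > d` variables has a
nontrivial zero. -/
def IsC1 (k : Type*) [Field k] : Prop :=
  ∀ (n d : ℕ) (f : MvPolynomial (Fin n) k), f.IsHomogeneous d → 1 ≤ d → d < n →
    ∃ x : Fin n → k, x ≠ 0 ∧ eval x f = 0

variable {k : Type*} [Field k]

/-- the symmetric bilinear form on `k^5` whose isotropic vectors are the bivectors of a
four-dimensional symplectic space which vanish on the symplectic form -/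
def G5 (p r : Fin 5 → k) : k := 2 * (p 0 * r 0) + p 1 * r 4 + p 4 * r 1 - p 2 * r 3 - p 3 * r 2

lemma G5_comm (p r : Fin 5 → k) : G5 p r = G5 r p := by unfold G5; ring

lemma G5_add (p p' r : Fin 5 → k) : G5 (p + p') r = G5 p r + G5 p' r := by
  simp only [G5, Pi.add_apply]; ring

lemma G5_smul (c : k) (p r : Fin 5 → k) : G5 (c • p) r = c * G5 p r := by
  simp only [G5, Pi.smul_apply, smul_eq_mul]; ring

lemma G5_zero (r : Fin 5 → k) : G5 0 r = 0 := by simp [G5]

/-- `p ↦ (G5 p (A i))_i` as a linear map -/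
def GLin {m : ℕ} (A : Fin m → Fin 5 → k) : (Fin 5 → k) →ₗ[k] (Fin m → k) where
  toFun p := fun i => G5 p (A i)
  map_add' p q := by funext i; exact G5_add p q (A i)
  map_smul' c p := by funext i; simp only [G5_smul, RingHom.id_apply, Pi.smul_apply, smul_eq_mul]

lemma exists_orth {m : ℕ} (hm : m < 5) (A : Fin m → Fin 5 → k) :
    ∃ X : Fin 5 → k, X ≠ 0 ∧ ∀ i, G5 X (A i) = 0 := by
  have h : LinearMap.ker (GLin A) ≠ ⊥ := by
    apply LinearMap.ker_ne_bot_of_finrank_lt
    simp [hm]
  obtain ⟨X, hX, hX0⟩ := (Submodule.ne_bot_iff _).1 h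
  refine ⟨X, hX0, fun i => ?_⟩
  have := congrFun (LinearMap.mem_ker.1 hX) i
  exact this

/-- a ternary quadratic form is isotropic over a `C1` field -/
lemma exists_ternary (hk : IsC1 k) (n : Fin 3 → Fin 5 → k) :
    ∃ x : Fin 3 → k, x ≠ 0 ∧ G5 (∑ i, x i • n i) (∑ i, x i • n i) = 0 := by
  let L : Fin 5 → MvPolynomial (Fin 3) k := fun c => ∑ i, C (n i c) * X i
  have hL : ∀ c, (L c).IsHomogeneous 1 := by
    intro c
    apply IsHomogeneous.sum
    intro i _
    have := (isHomogeneous_C (Fin 3) (n i c)).mul (isHomogeneous_X k i)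
    simpa using this
  let f : MvPolynomial (Fin 3) k := C 2 * (L 0 * L 0) + L 1 * L 4 + L 4 * L 1 - L 2 * L 3 - L 3 * L 2
  have hf : f.IsHomogeneous 2 := by
    have h2 : ∀ a b, (L a * L b).IsHomogeneous 2 := fun a b => (hL a).mul (hL b)
    have h0 : (C 2 * (L 0 * L 0)).IsHomogeneous 2 := by
      have := (isHomogeneous_C (Fin 3) (2 : k)).mul (h2 0 0)
      simpa using this
    exact (((h0.add (h2 1 4)).add (h2 4 1)).sub (h2 2 3)).sub (h2 3 2)
  obtain ⟨x, hx0, hx⟩ := hk 3 2 f hf (by norm_num) (by norm_num)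
  refine ⟨x, hx0, ?_⟩
  have hLx : ∀ c, eval x (L c) = (∑ i, x i • n i) c := by
    intro c
    simp only [L, map_sum, map_mul, eval_C, eval_X, Finset.sum_apply, Pi.smul_apply, smul_eq_mul]
    exact Finset.sum_congr rfl fun i _ => mul_comm _ _
  rw [← hx]
  simp only [f, G5, map_add, map_sub, map_mul, eval_C, hLx]

/-- three dependent conditions leave a three-dimensional space, hence an isotropic vector -/
lemma exists_of_dep (hk : IsC1 k) (A : Fin 3 → Fin 5 → k) (c : Fin 3 → k) (hc : c ≠ 0)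
    (hA : ∑ i, c i • A i = 0) : ∃ X : Fin 5 → k, X ≠ 0 ∧ G5 X X = 0 ∧ ∀ i, G5 X (A i) = 0 := by
  -- the range of `GLin A` is contained in the plane `∑ c i y i = 0`
  let φ : (Fin 3 → k) →ₗ[k] k := ∑ i, c i • LinearMap.proj i
  have hφ : ∀ y, φ y = ∑ i, c i * y i := by
    intro y; simp [φ]
  have hφ0 : φ ≠ 0 := by
    intro h
    apply hc
    funext i
    have h1 := hφ (Pi.single i 1)
    rw [h, LinearMap.zero_apply, Finset.sum_eq_single i, Pi.single_eq_same, mul_one] at h1
    · exact h1.symm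
    · intro b _ hb
      rw [Pi.single_eq_of_ne hb, mul_zero]
    · intro hi
      exact absurd (Finset.mem_univ i) hi
  have hrange : LinearMap.range (GLin A) ≤ LinearMap.ker φ := by
    rintro _ ⟨p, rfl⟩
    rw [LinearMap.mem_ker, hφ]
    have h1 : ∑ i, c i * GLin A p i = G5 (∑ i, c i • A i) p := by
      have h2 : ∀ s : Finset (Fin 3), ∑ i ∈ s, c i * GLin A p i = G5 (∑ i ∈ s, c i • A i) p := by
        intro s
        induction s using Finset.induction_on with
        | empty => simp [G5_zero]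
        | insert a s ha ih =>
          rw [Finset.sum_insert ha, Finset.sum_insert ha, G5_add, G5_smul, ih]
          congr 2
          exact G5_comm _ _
      exact h2 Finset.univ
    rw [h1, hA, G5_zero]
  have hker : Module.finrank k (LinearMap.ker φ) = 2 := by
    have h1 := LinearMap.finrank_range_add_finrank_ker φ
    have h2 : LinearMap.range φ = ⊤ := LinearMap.range_eq_top.2 (LinearMap.surjective hφ0)
    rw [h2, finrank_top] at h1
    simp at h1
    omega
  have hr2 : Module.finrank k (LinearMap.range (GLin A)) ≤ 2 := by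
    rw [← hker]; exact Submodule.finrank_mono hrange
  have hk3 : 3 ≤ Module.finrank k (LinearMap.ker (GLin A)) := by
    have h1 := LinearMap.finrank_range_add_finrank_ker (GLin A)
    simp only [Module.finrank_fintype_fun_eq_card, Fintype.card_fin] at h1
    omega
  obtain ⟨b, hb⟩ := exists_linearIndependent_of_le_finrank (R := k) hk3
  obtain ⟨x, hx0, hx⟩ := exists_ternary hk (fun i => (b i : Fin 5 → k))
  refine ⟨∑ i, x i • (b i : Fin 5 → k), ?_, hx, fun i => ?_⟩
  · intro h0
    apply hx0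
    have h1 : ∑ i, x i • b i = 0 := by
      apply Subtype.ext
      simpa using h0
    funext i
    exact Fintype.linearIndependent_iff.1 hb x h1 i
  · have h1 : (∑ i, x i • (b i : Fin 5 → k)) ∈ LinearMap.ker (GLin A) :=
      Submodule.sum_mem _ fun i _ => Submodule.smul_mem _ _ (b i).2
    exact congrFun (LinearMap.mem_ker.1 h1) i

/-- determinant of the block Gram matrix -/
lemma det_gram (A : Fin 3 → Fin 5 → k) (Y Z : Fin 5 → k)
    (hYA : ∀ i, G5 Y (A i) = 0) (hZA : ∀ i, G5 Z (A i) = 0) (hZY : G5 Z Y = 0) :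
    2 * (Matrix.of ![A 0, A 1, A 2, Y, Z]).det ^ 2 =
      (Matrix.of fun i j => G5 (A i) (A j)).det * G5 Y Y * G5 Z Z := by
  let Γ : Matrix (Fin 5) (Fin 5) k :=
    !![2, 0, 0, 0, 0; 0, 0, 0, 0, 1; 0, 0, 0, -1, 0; 0, 0, -1, 0, 0; 0, 1, 0, 0, 0]
  have hΓ : Γ.det = 2 := by
    simp [Γ, Matrix.det_succ_row_zero, Fin.sum_univ_succ, Fin.succAbove]
    ring
  let R : Fin 5 → Fin 5 → k := ![A 0, A 1, A 2, Y, Z]
  have hG : ∀ p r : Fin 5 → k, (Matrix.of (fun (_ : Fin 1) => p) * Γ *
      (Matrix.of (fun (_ : Fin 1) => r)).transpose) 0 0 = G5 p r := by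
    intro p r
    simp [Matrix.mul_apply, Γ, Fin.sum_univ_succ, G5]
    ring
  have hS : Matrix.of R * Γ * (Matrix.of R).transpose = Matrix.of fun i j => G5 (R i) (R j) := by
    ext i j
    rw [Matrix.of_apply, ← hG]
    simp only [Matrix.mul_apply, Matrix.transpose_apply, Matrix.of_apply]
  have hdet : (Matrix.of R * Γ * (Matrix.of R).transpose).det = 2 * (Matrix.of R).det ^ 2 := by
    rw [Matrix.det_mul, Matrix.det_mul, Matrix.det_transpose, hΓ]; ring
  have hAY : ∀ i, G5 (A i) Y = 0 := fun i => by rw [G5_comm]; exact hYA i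
  have hAZ : ∀ i, G5 (A i) Z = 0 := fun i => by rw [G5_comm]; exact hZA i
  have hYZ : G5 Y Z = 0 := by rw [G5_comm]; exact hZY
  have hexp : (Matrix.of fun i j => G5 (R i) (R j)) =
      !![G5 (A 0) (A 0), G5 (A 0) (A 1), G5 (A 0) (A 2), 0, 0;
         G5 (A 1) (A 0), G5 (A 1) (A 1), G5 (A 1) (A 2), 0, 0;
         G5 (A 2) (A 0), G5 (A 2) (A 1), G5 (A 2) (A 2), 0, 0;
         0, 0, 0, G5 Y Y, 0;
         0, 0, 0, 0, G5 Z Z] := by
    ext i j
    fin_cases i <;> fin_cases j <;>
      simp [R, hAY, hAZ, hYZ, hYA, hZA, hZY]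
  have hdet' := hdet
  rw [hS, hexp] at hdet'
  rw [Matrix.det_fin_three]
  change 2 * (Matrix.of R).det ^ 2 = _
  rw [← hdet']
  simp [Matrix.det_succ_row_zero, Fin.sum_univ_succ, Fin.succAbove]
  ring

/-- the main lemma on quadratic forms -/
theorem exists_isotropic_orth (hk : IsC1 k) (h2 : (2 : k) ≠ 0) (A : Fin 3 → Fin 5 → k) (r : k)
    (hr : -2 * (Matrix.of fun i j => G5 (A i) (A j)).det = r ^ 2) :
    ∃ X : Fin 5 → k, X ≠ 0 ∧ G5 X X = 0 ∧ ∀ i, G5 X (A i) = 0 := by
  by_cases hr0 : r = 0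
  · -- degenerate Gram matrix
    have hdet : (Matrix.of fun i j => G5 (A i) (A j)).det = 0 := by
      rw [hr0] at hr
      have : (-2 : k) ≠ 0 := neg_ne_zero.2 h2
      rcases mul_eq_zero.1 (hr.trans (by norm_num)) with h | h
      · exact absurd h this
      · exact h
    obtain ⟨c, hc, hcA⟩ := Matrix.exists_vecMul_eq_zero_iff.2 hdet
    have hsum : ∀ p, G5 (∑ i, c i • A i) p = ∑ i, c i * G5 (A i) p := by
      intro p
      simp only [Fin.sum_univ_three, G5_add, G5_smul]
    have h0 : ∀ j, G5 (∑ i, c i • A i) (A j) = 0 := by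
      intro j
      rw [hsum]
      have := congrFun hcA j
      simpa [Matrix.vecMul, dotProduct] using this
    by_cases hX : (∑ i, c i • A i) = 0
    · exact exists_of_dep hk A c hc hX
    · refine ⟨∑ i, c i • A i, hX, ?_, h0⟩
      rw [hsum]
      refine Finset.sum_eq_zero fun i _ => ?_
      rw [G5_comm, h0, mul_zero]
  · -- nondegenerate case
    obtain ⟨Y, hY0, hYA⟩ := exists_orth (by norm_num : 3 < 5) A
    by_cases hYY : G5 Y Y = 0
    · exact ⟨Y, hY0, hYY, hYA⟩
    obtain ⟨Z, hZ0, hZ⟩ := exists_orth (by norm_num : 4 < 5) ![A 0, A 1, A 2, Y]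
    have hZA : ∀ i, G5 Z (A i) = 0 := by
      intro i
      fin_cases i
      · exact hZ 0
      · exact hZ 1
      · exact hZ 2
    have hZY : G5 Z Y = 0 := hZ 3
    by_cases hZZ : G5 Z Z = 0
    · exact ⟨Z, hZ0, hZZ, hZA⟩
    have hgram := det_gram A Y Z hYA hZA hZY
    set δ := (Matrix.of ![A 0, A 1, A 2, Y, Z]).det with hδ
    set h := (Matrix.of fun i j => G5 (A i) (A j)).det with hh
    set y := G5 Y Y with hy
    set z := G5 Z Z with hz
    -- `-y z = (2 δ / r)^2`
    have hm : -(y * z) = (2 * δ / r) ^ 2 := by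
      rw [div_pow, eq_div_iff (pow_ne_zero 2 hr0), ← hr]
      linear_combination (-2) * hgram
    set m := 2 * δ / r with hmdef
    refine ⟨m • Y + y • Z, ?_, ?_, ?_⟩
    · intro h0
      have h1 : G5 (m • Y + y • Z) Z = 0 := by rw [h0, G5_zero]
      rw [G5_add, G5_smul, G5_smul, G5_comm Y Z, hZY, mul_zero, zero_add] at h1
      rcases mul_eq_zero.1 h1 with h | h
      · exact hYY h
      · exact hZZ h
    · have h1 : ∀ p, G5 (m • Y + y • Z) p = m * G5 Y p + y * G5 Z p := by
        intro p; rw [G5_add, G5_smul, G5_smul]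
      rw [h1, G5_comm Y, G5_comm Z, h1, h1, ← hy, hZY, G5_comm Y Z, hZY, ← hz]
      linear_combination y * (-hm)
    · intro i
      rw [G5_add, G5_smul, G5_smul, hYA, hZA]; ring

end Pool.Agent.Helper37.LG
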