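import Pool.Agent.Helper37.LG.Quad

open MvPolynomial

namespace Pool.Agent.Helper37.LG

variable {k : Type*} [Field k]

/-- the standard symplectic matrix of size six -/
def J0 : Matrix (Fin 6) (Fin 6) k :=
  !![0, 1, 0, 0, 0, 0; -1, 0, 0, 0, 0, 0; 0, 0, 0, 1, 0, 0; 0, 0, -1, 0, 0, 0;
     0, 0, 0, 0, 0, 1; 0, 0, 0, 0, -1, 0]

lemma J0_mul : (J0 : Matrix (Fin 6) (Fin 6) k) * J0 = -1 := by
  ext i j
  fin_cases i <;> fin_cases j <;> simp [J0, Matrix.mul_apply, Fin.sum_univ_succ]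

section symp
variable {V : Type*} [AddCommGroup V] [Module k V]

lemma alt_swap (ω : V →ₗ[k] V →ₗ[k] k) (h : ∀ x, ω x x = 0) (x y : V) : ω y x = - ω x y := by
  have h1 := h (x + y)
  simp only [map_add, LinearMap.add_apply, h, zero_add, add_zero] at h1
  exact eq_neg_of_add_eq_zero_left h1

lemma exists_perp [FiniteDimensional k V] (ω : V →ₗ[k] V →ₗ[k] k) {m : ℕ}
    (hm : m < Module.finrank k V) (t : Fin m → V) : ∃ x : V, x ≠ 0 ∧ ∀ i, ω (t i) x = 0 := by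
  let T : V →ₗ[k] (Fin m → k) := LinearMap.pi fun i => ω (t i)
  have h : LinearMap.ker T ≠ ⊥ := by
    apply LinearMap.ker_ne_bot_of_finrank_lt
    simpa using hm
  obtain ⟨X, hX, hX0⟩ := (Submodule.ne_bot_iff _).1 h
  exact ⟨X, hX0, fun i => congrFun (LinearMap.mem_ker.1 hX) i⟩

lemma exists_partner (ω : V →ₗ[k] V →ₗ[k] k) (hnd : ∀ x, (∀ y, ω x y = 0) → x = 0) {e : V}
    (he : e ≠ 0) : ∃ y, ω e y = 1 := by
  have h1 : ∃ y, ω e y ≠ 0 := by
    by_contra h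
    push Not at h
    exact he (hnd e h)
  obtain ⟨y, hy⟩ := h1
  refine ⟨(ω e y)⁻¹ • y, ?_⟩
  rw [map_smul, smul_eq_mul, inv_mul_cancel₀ hy]

/-- a symplectic basis starting with a given vector -/
lemma exists_symp [FiniteDimensional k V] (ω : V →ₗ[k] V →ₗ[k] k) (h : ∀ x, ω x x = 0)
    (hnd : ∀ x, (∀ y, ω x y = 0) → x = 0) (hV : Module.finrank k V = 6) {u : V} (hu : u ≠ 0) :
    ∃ s : Fin 6 → V, s 0 = u ∧ ∀ a b, ω (s a) (s b) = J0 a b := by
  obtain ⟨f, hf⟩ := exists_partner ω hnd hu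
  obtain ⟨e1, he1, hp1⟩ := exists_perp ω (by omega : 2 < Module.finrank k V) ![u, f]
  have hue1 : ω u e1 = 0 := hp1 0
  have hfe1 : ω f e1 = 0 := hp1 1
  obtain ⟨y1, hy1⟩ := exists_partner ω hnd he1
  have hfu : ω f u = -1 := by rw [alt_swap ω h, hf]
  have he1u : ω e1 u = 0 := by rw [alt_swap ω h, hue1, neg_zero]
  have he1f : ω e1 f = 0 := by rw [alt_swap ω h, hfe1, neg_zero]
  set f1 : V := y1 - ω y1 f • u - ω u y1 • f with hf1
  have huf1 : ω u f1 = 0 := by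
    simp [hf1, h, hf]
  have hff1 : ω f f1 = 0 := by
    simp [hf1, h, hfu, alt_swap ω h y1 f]
  have he1f1 : ω e1 f1 = 1 := by
    simp [hf1, he1u, he1f, hy1]
  have hf1u : ω f1 u = 0 := by rw [alt_swap ω h, huf1, neg_zero]
  have hf1f : ω f1 f = 0 := by rw [alt_swap ω h, hff1, neg_zero]
  have hf1e1 : ω f1 e1 = -1 := by rw [alt_swap ω h, he1f1]
  obtain ⟨e2, he2, hp2⟩ := exists_perp ω (by omega : 4 < Module.finrank k V) ![u, f, e1, f1]
  have hue2 : ω u e2 = 0 := hp2 0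
  have hfe2 : ω f e2 = 0 := hp2 1
  have he1e2 : ω e1 e2 = 0 := hp2 2
  have hf1e2 : ω f1 e2 = 0 := hp2 3
  obtain ⟨y2, hy2⟩ := exists_partner ω hnd he2
  have he2u : ω e2 u = 0 := by rw [alt_swap ω h, hue2, neg_zero]
  have he2f : ω e2 f = 0 := by rw [alt_swap ω h, hfe2, neg_zero]
  have he2e1 : ω e2 e1 = 0 := by rw [alt_swap ω h, he1e2, neg_zero]
  have he2f1 : ω e2 f1 = 0 := by rw [alt_swap ω h, hf1e2, neg_zero]
  set f2 : V := y2 - ω y2 f • u - ω u y2 • f - ω y2 f1 • e1 - ω e1 y2 • f1 with hf2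
  have huf2 : ω u f2 = 0 := by
    simp [hf2, h, hf, hue1, huf1]
  have hff2 : ω f f2 = 0 := by
    simp [hf2, h, hfu, hfe1, hff1, alt_swap ω h y2 f]
  have he1f2 : ω e1 f2 = 0 := by
    simp [hf2, h, he1u, he1f, he1f1]
  have hf1f2 : ω f1 f2 = 0 := by
    simp [hf2, h, hf1u, hf1f, hf1e1, alt_swap ω h y2 f1]
  have he2f2 : ω e2 f2 = 1 := by
    simp [hf2, he2u, he2f, he2e1, he2f1, hy2]
  have hf2u : ω f2 u = 0 := by rw [alt_swap ω h, huf2, neg_zero]
  have hf2f : ω f2 f = 0 := by rw [alt_swap ω h, hff2, neg_zero]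
  have hf2e1 : ω f2 e1 = 0 := by rw [alt_swap ω h, he1f2, neg_zero]
  have hf2f1 : ω f2 f1 = 0 := by rw [alt_swap ω h, hf1f2, neg_zero]
  have hf2e2 : ω f2 e2 = -1 := by rw [alt_swap ω h, he2f2]
  refine ⟨![u, f, e1, f1, e2, f2], rfl, ?_⟩
  intro a b
  fin_cases a <;> fin_cases b
  · exact h u
  · exact hf
  · exact hue1
  · exact huf1
  · exact hue2
  · exact huf2
  · exact hfu
  · exact h f
  · exact hfe1
  · exact hff1
  · exact hfe2
  · exact hff2
  · exact he1u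
  · exact he1f
  · exact h e1
  · exact he1f1
  · exact he1e2
  · exact he1f2
  · exact hf1u
  · exact hf1f
  · exact hf1e1
  · exact h f1
  · exact hf1e2
  · exact hf1f2
  · exact he2u
  · exact he2f
  · exact he2e1
  · exact he2f1
  · exact h e2
  · exact he2f2
  · exact hf2u
  · exact hf2f
  · exact hf2e1
  · exact hf2f1
  · exact hf2e2
  · exact h f2

end symp

section traces

/-- the trace expressions in a symplectic basis -/
lemma trace_inv {J P : Matrix (Fin 6) (Fin 6) k} (h : P.transpose * J * P = J0) :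
    J⁻¹ = -(P * J0 * P.transpose) := by
  have h1 : (P.transpose * J) * (P * (-J0)) = 1 := by
    rw [← Matrix.mul_assoc, h, Matrix.mul_neg, J0_mul, neg_neg]
  have h2 := mul_eq_one_comm.1 h1
  apply Matrix.inv_eq_left_inv
  rw [← h2]
  simp only [Matrix.mul_assoc, Matrix.neg_mul, Matrix.mul_neg]

lemma trace_one {J P Φ : Matrix (Fin 6) (Fin 6) k} (h : P.transpose * J * P = J0) :
    (J⁻¹ * Φ).trace = -(J0 * (P.transpose * Φ * P)).trace := by
  rw [trace_inv h, Matrix.neg_mul, Matrix.trace_neg]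
  congr 1
  rw [Matrix.mul_assoc, Matrix.mul_assoc, Matrix.trace_mul_comm]
  simp only [Matrix.mul_assoc]

lemma trace_two {J P Φ Φ' : Matrix (Fin 6) (Fin 6) k} (h : P.transpose * J * P = J0) :
    ((J⁻¹ * Φ) * (J⁻¹ * Φ')).trace =
      (J0 * (P.transpose * Φ * P) * (J0 * (P.transpose * Φ' * P))).trace := by
  rw [trace_inv h]
  have h1 : -(P * J0 * P.transpose) * Φ * (-(P * J0 * P.transpose) * Φ') =
      P * (J0 * (P.transpose * Φ * P) * (J0 * (P.transpose * Φ'))) := by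
    simp only [Matrix.neg_mul, Matrix.mul_neg, neg_neg, Matrix.mul_assoc]
  rw [h1, Matrix.trace_mul_comm]
  simp only [Matrix.mul_assoc]

/-- the linear form on the five-dimensional space as a vector -/
def vec5 (b : Fin 6 → Fin 6 → k) : Fin 5 → k :=
  ![(b 2 3 - b 4 5) / 2, b 3 5, - b 3 4, - b 2 5, b 2 4]

lemma explicit {b : Fin 6 → Fin 6 → k} (h0 : ∀ a, b 0 a = 0) (h1 : ∀ a c, b a c = - b c a)
    (h2 : ∀ a, b a a = 0) : Matrix.of b =
      !![0, 0, 0, 0, 0, 0;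
         0, 0, b 1 2, b 1 3, b 1 4, b 1 5;
         0, - b 1 2, 0, b 2 3, b 2 4, b 2 5;
         0, - b 1 3, - b 2 3, 0, b 3 4, b 3 5;
         0, - b 1 4, - b 2 4, - b 3 4, 0, b 4 5;
         0, - b 1 5, - b 2 5, - b 3 5, - b 4 5, 0] := by
  have h0' : ∀ a, b a 0 = 0 := fun a => by rw [h1, h0, neg_zero]
  ext i j
  fin_cases i <;> fin_cases j
  all_goals first
    | exact h0 _
    | exact h0' _
    | exact h2 _
    | rfl
    | exact h1 _ _

lemma trace_explicit (hk2 : (2 : k) ≠ 0) {b b' : Fin 6 → Fin 6 → k} (h0 : ∀ a, b 0 a = 0)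
    (h1 : ∀ a c, b a c = - b c a) (h2 : ∀ a, b a a = 0) (h0' : ∀ a, b' 0 a = 0)
    (h1' : ∀ a c, b' a c = - b' c a) (h2' : ∀ a, b' a a = 0) :
    4 * (J0 * Matrix.of b * (J0 * Matrix.of b')).trace -
      (-(J0 * Matrix.of b).trace) * (-(J0 * Matrix.of b').trace) = 8 * G5 (vec5 b) (vec5 b') := by
  rw [explicit h0 h1 h2, explicit h0' h1' h2']
  simp [J0, Matrix.trace, Matrix.mul_apply, Fin.sum_univ_succ, G5, vec5]
  field_simp
  ring

end traces

end Pool.Agent.Helper37.LG
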